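import Mathlib
import Pool.Agent.H.MP_89b2fa_an.D
namespace Pool.Agent.Results.MP_89b2fa_an.Discont
open MeasureTheory Metric
open scoped ContDiff

abbrev P : Type := EuclideanSpace ℝ (Fin 2)

noncomputable def Leb (R : ℝ) : Measure P := volume.restrict (ball 0 R)

def Test (R : ℝ) (h : P → ℝ) : Prop :=
  ContDiff ℝ ∞ h ∧ HasCompactSupport h ∧ tsupport h ⊆ ball 0 R

def WeakGrad (R : ℝ) (u : P → ℝ) (g : P → P) : Prop :=
  ∀ h, Test R h → ∀ v : P,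
    ∫ z, u z * fderiv ℝ h z v ∂Leb R = -∫ z, inner ℝ (g z) v * h z ∂Leb R

def Solves (R : ℝ) (b g : P → P) : Prop :=
  ∀ h, Test R h → ∫ z, inner ℝ (g z) (gradient h z + h z • b z) ∂Leb R = 0

theorem result :
    ∃ (R : ℝ) (b : P → P) (u : P → ℝ) (g : P → P), 0 < R ∧
      MemLp b 2 (Leb R) ∧ MemLp u 2 (Leb R) ∧ MemLp g 2 (Leb R) ∧
      WeakGrad R u g ∧ Solves R b g ∧ MemLp u ⊤ (Leb R) ∧
      ¬ ∃ v : P → ℝ, ContinuousOn v (ball 0 R) ∧ u =ᵐ[Leb R] v := by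
  obtain ⟨R, b, u, g, h1, h2, h3, h4, h5, h6, h7, h8⟩ := Pool.Agent.H.MP_89b2fa_an.main
  exact ⟨R, b, u, g, h1, h2, h3, h4, fun h hh => h5 h hh.1 hh.2.1 hh.2.2,
    fun h hh => h6 h hh.1 hh.2.1 hh.2.2, h7, h8⟩

end Pool.Agent.Results.MP_89b2fa_an.Discont
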